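import Pool.Agent.H.MP_496271_an.A

namespace Pool.Agent.H.MP_4ac5ef_an
open MeasureTheory Metric Pool.Agent.H.MP_ceba03_an ComplexConjugate Filter Topology
open Pool.Agent.H.MP_e9aa5f_an Pool.Agent.H.MP_c4e2dd_an Pool.Agent.H.MP_535799_an Complex
open Pool.Agent.H.MP_496271_an

lemma fe_re (N : ℕ) (x : T) : (fe N x).re = ‖fe N x‖ := by
  have : fe N x = ((1 / (N + 1) * ‖∑ j ∈ Finset.range (N + 1), fourier j x‖ ^ 2 : ℝ) : ℂ) := by
    push_cast
    rw [← Complex.mul_conj', map_sum, Finset.sum_mul_sum, fe, ContinuousMap.sum_apply,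
      Finset.sum_product, Finset.mul_sum]
    refine Finset.sum_congr rfl fun j _ => ?_
    rw [Finset.mul_sum]
    refine Finset.sum_congr rfl fun k _ => ?_
    rw [sub_eq_add_neg, ContinuousMap.smul_apply, fourier_add, fourier_neg, smul_eq_mul]
  rw [this, Complex.norm_real, Real.norm_of_nonneg (by positivity), ofReal_re]

lemma herg2 {a : T → ℝ} (m2 : MemLp (fun t => (a t : ℂ)) 2 μ) : ∃ G : T → ℂ, Integrable G μ ∧
    MP_496271_an.Ne G ∧ ∀ t, (G t).re = a t := by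
  have hi := m2.integrable one_le_two
  set c := fourierCoeff fun t => (a t : ℂ) with hc
  have h1 : ∀ n, conj (c (-n)) = c n := fun n => by rw [← fc_conj]; simp [hc]
  obtain ⟨G, h2, h3⟩ := of_l2 (c := fun n => if n < 0 then -c n else if n = 0 then 0 else c n)
    ((lp.memℓp (fourierBasis.repr (m2.toLp _))).mono' fun n => by
      rw [fourierBasis_repr, fourierCoeff_congr_ae m2.coeFn_toLp]
      split_ifs <;> simp [hc])
  have h4 := (conjCLE : ℂ →L[ℝ] ℂ).integrable_comp h2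
  have h5 := zero_of (h2.add h4) fun n => by
    refine (fc_add h2 h4 n).trans ?_
    change _ + fourierCoeff (fun t => conj (G t)) n = 0
    rw [fc_conj, h3, h3]
    rcases lt_trichotomy n 0 with hn | rfl | hn
    · simp [hn, hn.ne, hn.not_gt, h1]
    · simp
    · simp [hn, hn.ne', hn.not_gt, h1]
  have h6 : (fun t => (a t : ℂ) + G t) =ᵐ[μ] fun t => a t + (G t).im * I := by
    filter_upwards [h5] with t ht
    have : (G t).re = 0 := by simpa using congrArg re ht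
    apply Complex.ext <;> simp [this]
  refine ⟨_, (hi.add h2).congr h6, fun n hn => ?_, by simp⟩
  rw [← fourierCoeff_congr_ae h6, fc_add hi h2, h3]; simp [hn, hc]

lemma fj_ge {G : T → ℂ} (h : Integrable G μ) (hB : ∀ t, 1 ≤ (G t).re) (N : ℕ)
    (x : T) : 1 ≤ (fj N G x).re := by
  obtain ⟨_, h1⟩ := bd_cont (φ := fun t => fe N (x - t)) (by fun_prop)
  rw [fj_conv N h, ← RCLike.re_to_complex, ← integral_re (h.mul_bdd h1.1 h1.2)]
  refine (le_of_eq ?_).trans (integral_mono (f := fun t => ‖fe N (x - t)‖) (cint' (by fun_prop))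
    (h.mul_bdd h1.1 h1.2).re fun t => ?_)
  · rw [integral_sub_left_eq_self (fun t => ‖fe N t‖), fe_norm]
  · simp only [RCLike.re_to_complex, mul_re, fe_im, mul_zero, sub_zero, fe_re]
    exact le_mul_of_one_le_left (norm_nonneg _) (hB t)

noncomputable def beta (s : ℝ) (w : ℂ) : ℂ := cexp (-s * log w)

lemma beta_norm (s : ℝ) (w : ℂ) : ‖beta s w‖ = Real.exp (-s * Real.log ‖w‖) := by
  simp [beta, Complex.norm_exp, log_re]

lemma lg {w : ℂ} (hw : 1 ≤ w.re) : 0 ≤ Real.log ‖w‖ := Real.log_nonneg (hw.trans (re_le_norm w))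

lemma beta_le {s : ℝ} (hs : 0 ≤ s) {w : ℂ} (hw : 1 ≤ w.re) : ‖beta s w‖ ≤ 1 := by
  rw [beta_norm, Real.exp_le_one_iff]; nlinarith [lg hw]

lemma beta_d (s : ℝ) {w : ℂ} (hw : 1 ≤ w.re) : HasDerivAt (beta s) (beta s w * (-s * w⁻¹)) w :=
  ((Complex.hasDerivAt_log (.inl (by linarith))).const_mul (-s : ℂ)).cexp

lemma beta_re {s : ℝ} (hs : 0 ≤ s) (hs' : s ≤ 1 / 2) {w : ℂ} (hw : 1 ≤ w.re) :
    ‖beta s w‖ / 2 ≤ (beta s w).re := by
  have h1 := abs_le.1 (abs_arg_le_pi_div_two_iff.2 (zero_le_one.trans hw))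
  have h2 := Real.one_sub_sq_div_two_le_cos (x := -s * arg w)
  have h3 : (-s * arg w) ^ 2 ≤ 1 := by
    have := Real.pi_le_four
    have : arg w ^ 2 ≤ 4 := by nlinarith
    have : s ^ 2 ≤ 1 / 4 := by nlinarith
    nlinarith [sq_nonneg s, sq_nonneg (arg w)]
  rw [beta, Complex.norm_exp, exp_re, show (-s * log w).im = -s * arg w by simp [log_im]]
  nlinarith [Real.exp_pos (-s * log w).re]

lemma beta_hi {G : T → ℂ} (h : Integrable G μ) (h' : MP_496271_an.Ne G) (hB : ∀ t, 1 ≤ (G t).re)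
    {s : ℝ} (hs : 0 ≤ s) : HI (fun t => beta s (G t)) 1 := by
  have h2 : Bd (fun t => beta s (G t)) 1 :=
    ⟨(((measurable_const.mul measurable_log).cexp.comp_aemeasurable
      h.1.aemeasurable).aestronglyMeasurable :), .of_forall fun t => beta_le hs (hB t)⟩
  have h3 : ∀ N, HH fun t => beta s (fj N G t) := fun N => by
    obtain ⟨p, hp⟩ := fj_poly h' N
    simp only [hp]
    refine hh_an (G := fun w => beta s (p.eval w)) fun z hz => ?_
    have := maxA (G := fun w => cexp (-p.eval w)) (B := Real.exp (-1))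
      (fun w _ => p.differentiable.neg.cexp.analyticAt w) (fun w hw => by
        obtain ⟨t, rfl⟩ := e_surj hw
        rw [Complex.norm_exp, Real.exp_le_exp, neg_re, ← hp, neg_le_neg_iff]
        exact fj_ge h hB N t) hz
    rw [Complex.norm_exp, Real.exp_le_exp, neg_re, neg_le_neg_iff] at this
    exact (analyticAt_const.mul ((an_poly p z hz).clog (.inl (by linarith)))).cexp
  refine hh_lim h3 h2 (squeeze_zero (fun _ => integral_nonneg fun _ => norm_nonneg _) (fun N => ?_)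
    (by simpa using (fj_tend h).const_mul s))
  rw [← integral_const_mul]
  obtain ⟨_, h4⟩ := bd_cont (fj N G).continuous
  refine integral_mono ((HH.int (h3 N)).sub h2.int).norm ((h4.int.sub h).norm.const_mul _)
    fun t => (convex_halfSpace_re_ge 1).norm_image_sub_le_of_norm_hasDerivWithin_le
      (fun w hw => (beta_d s hw).hasDerivWithinAt) (fun w (hw : 1 ≤ w.re) => ?_) (hB t)
      (fj_ge h hB N t)
  rw [norm_mul, norm_mul, norm_neg, norm_inv, Complex.norm_of_nonneg hs]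
  exact (mul_le_of_le_one_left (by positivity) (beta_le hs hw)).trans (mul_le_of_le_one_right hs
    (inv_le_one_of_one_le₀ (hw.trans (re_le_norm w))))

lemma exists_G {f : T → ℂ} (hf : Bd f 1) (h0 : μ {t | ‖f t‖ = 1} = 0) :
    ∃ G : T → ℂ, Integrable G μ ∧ MP_496271_an.Ne G ∧ (∀ t, 1 ≤ (G t).re) ∧
      ∀ L : ℝ, ∃ δ > 0, ∀ᵐ t ∂μ, 1 - δ < ‖f t‖ → L ≤ (G t).re := by
  obtain ⟨g, hg, e⟩ := hf.1.aemeasurable
  have m : ∀ δ : ℝ, MeasurableSet {t | 1 - δ < ‖g t‖} := fun δ =>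
    measurableSet_lt measurable_const hg.norm
  have h1 := tendsto_measure_biInter_gt (μ := μ) (s := fun δ : ℝ => {t | 1 - δ < ‖g t‖}) (a := 0)
    (fun δ _ => (m δ).nullMeasurableSet) (fun i j _ h t ht => (sub_le_sub_left h 1).trans_lt ht)
    ⟨1, one_pos, measure_ne_top _ _⟩
  rw [show μ (⋂ δ > (0 : ℝ), {t | 1 - δ < ‖g t‖}) = 0 from by
    refine measure_mono_null_ae ?_ h0
    filter_upwards [e, hf.2] with t a b c
    refine le_antisymm b (le_of_forall_pos_le_add fun δ hδ => ?_)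
    have : 1 - δ < ‖g t‖ := Set.mem_iInter₂.1 c δ hδ
    rw [a]; linarith] at h1
  choose δ h2 h3 using fun n : ℕ => ((h1.eventually (ge_mem_nhds (ENNReal.pow_pos
    (show (0 : ENNReal) < 2⁻¹ by simp) n))).and self_mem_nhdsWithin).exists
  obtain ⟨V, hV⟩ : ∃ V : T → ENNReal, V = fun t => ∑' n, {t | 1 - δ n < ‖g t‖}.indicator 1 t :=
    ⟨_, rfl⟩
  have mi := fun n => (show Measurable (1 : T → ENNReal) from measurable_one).indicator (m (δ n))
  have mV : Measurable V := by rw [hV]; exact Measurable.ennreal_tsum mi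
  have fV : ∫⁻ t, V t ∂μ ≠ ⊤ := by
    rw [hV, lintegral_tsum fun n => (mi n).aemeasurable]
    simp only [lintegral_indicator_one (m _)]
    exact ne_top_of_le_ne_top (by simp) (ENNReal.tsum_le_tsum h2)
  have k1 : MemLp (fun t => √(V t).toReal) 2 μ :=
    (memLp_two_iff_integrable_sq mV.ennreal_toReal.sqrt.aestronglyMeasurable).2 (by
      simpa using integrable_toReal_of_lintegral_ne_top mV.aemeasurable fV)
  have k2 : MemLp (fun t => 1 + √(V t).toReal) 2 μ :=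
    MemLp.add (f := fun _ => (1 : ℝ)) (g := fun t => √(V t).toReal) (memLp_const 1) k1
  obtain ⟨G, g1, g2, g3⟩ := herg2 (a := fun t => 1 + √(V t).toReal) (ofRealCLM.comp_memLp' k2)
  refine ⟨G, g1, g2, fun t => by simp [g3], fun L => ?_⟩
  obtain ⟨n, hn⟩ := exists_nat_ge (L ^ 2)
  obtain ⟨d, d1, d2⟩ := (((Finset.range n).eventually_all.2 fun k _ => nhdsWithin_le_nhds
    (ge_mem_nhds (h3 k))).and (self_mem_nhdsWithin (s := Set.Ioi (0 : ℝ)))).exists
  refine ⟨d, d2, ?_⟩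
  filter_upwards [e, ae_lt_top mV fV] with t a b c
  have : (n : ENNReal) ≤ V t := by
    rw [hV]
    refine le_trans (le_of_eq ?_) (ENNReal.sum_le_tsum (Finset.range n))
    rw [Finset.sum_congr rfl fun k hk => Set.indicator_of_mem (s := {t | 1 - δ k < ‖g t‖})
      (show 1 - δ k < ‖g t‖ by have := d1 k hk; rw [← a]; linarith) _]
    simp
  have := ENNReal.toReal_mono b.ne this
  rw [g3]
  linarith [Real.le_sqrt_of_sq_le (hn.trans (by simpa using this))]

lemma key {f : T → ℂ} (hf : Bd f 1) (h0 : μ {t | ‖f t‖ = 1} = 0) (n : ℕ) :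
    ∃ b : Fin n → T → ℂ, (∀ j, HI (b j) 1) ∧ ∀ c : Fin n → ℂ, c ≠ 0 → ∃ a : ℂ, a ≠ 0 ∧
      (∀ᵐ t ∂μ, ‖f t + a * (f t * ∑ j, c j * b j t)‖ ≤ 1) ∧
      (∀ η > 0, ∃ δ > 0, ∀ᵐ t ∂μ, 1 - δ < ‖f t‖ → ‖∑ j, c j * b j t‖ ≤ η) ∧
      ∃ δ > 0, ∀ᵐ t ∂μ, 1 - δ < ‖f t‖ → ∑ j, c j * b j t ≠ 0 := by
  obtain ⟨G, g1, g2, g3, g4⟩ := exists_G hf h0
  obtain ⟨κ, hκ⟩ : ∃ κ : ℝ, κ = 1 / (2 * (n + 1)) := ⟨_, rfl⟩
  have κ0 : 0 < κ := by rw [hκ]; positivity
  have s0 : ∀ j : Fin n, 0 ≤ (j + 1) * κ := fun j => by positivity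
  have sm : ∀ η > 0, ∃ δ > 0, ∀ᵐ t ∂μ, 1 - δ < ‖f t‖ → ∀ a b : ℝ, a + 1 ≤ b →
      ‖beta (b * κ) (G t)‖ ≤ η * ‖beta (a * κ) (G t)‖ := fun η hη => by
    obtain ⟨δ, d1, d2⟩ := g4 (Real.exp (-Real.log η / κ))
    refine ⟨δ, d1, d2.mono fun t ht h a b hab => ?_⟩
    have := Real.log_le_log (Real.exp_pos _) ((ht h).trans (re_le_norm _))
    rw [Real.log_exp, div_le_iff₀ κ0] at this
    rw [beta_norm, beta_norm, ← Real.exp_log hη, ← Real.exp_add, Real.exp_le_exp]
    nlinarith [mul_nonneg (sub_nonneg.2 hab) (mul_nonneg κ0.le (lg (g3 t)))]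
  refine ⟨fun j t => beta ((j + 1) * κ) (G t), fun j => beta_hi g1 g2 g3 (s0 j), fun c hc => ?_⟩
  obtain ⟨i, hi, hi'⟩ := Finset.exists_min_image (Finset.univ.filter fun j => c j ≠ 0) id
    (by simpa [Finset.Nonempty, funext_iff] using hc)
  simp only [Finset.mem_filter, Finset.mem_univ, true_and, id] at hi hi'
  have ci := norm_pos_iff.2 hi
  obtain ⟨C, hC⟩ : ∃ C, C = ∑ j, ‖c j‖ := ⟨_, rfl⟩
  have C0 : ‖c i‖ ≤ C := hC ▸ Finset.single_le_sum (fun j _ => norm_nonneg (c j)) (Finset.mem_univ i)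
  have C1 : 0 < C := ci.trans_le C0
  have bd : ∀ (x : Fin n → ℂ) (s : Finset (Fin n)) (B : ℝ), 0 ≤ B → (∀ j ∈ s, c j ≠ 0 → ‖x j‖ ≤ B) →
      ‖∑ j ∈ s, c j * x j‖ ≤ C * B := fun x s B hB h => by
    rw [hC, Finset.sum_mul]
    refine (norm_sum_le _ _).trans ((Finset.sum_le_sum fun j hj => ?_).trans
      (Finset.sum_le_sum_of_subset_of_nonneg s.subset_univ fun j _ _ => by positivity))
    by_cases h' : c j = 0
    · simp [h']
    · rw [norm_mul]; exact mul_le_mul_of_nonneg_left (h j hj h') (norm_nonneg _)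
  obtain ⟨δ, d1, d2⟩ := sm (‖c i‖ / (4 * C)) (by positivity)
  have main : ∀ᵐ t ∂μ, 1 - δ < ‖f t‖ → ∃ β, 0 < β ∧ β ≤ 1 ∧
      β / 4 ≤ ((c i)⁻¹ * ∑ j : Fin n, c j * beta ((j + 1) * κ) (G t)).re ∧
      ‖(c i)⁻¹ * ∑ j : Fin n, c j * beta ((j + 1) * κ) (G t)‖ ≤ 2 * β := d2.mono fun t ht h => by
    have h1 := bd (fun j => beta ((j + 1) * κ) (G t)) (Finset.univ.erase i) _ (by positivity)
      fun j hj hj' => ht h (i + 1) (j + 1) (by
        have := lt_of_le_of_ne (hi' j hj') (Finset.ne_of_mem_erase hj).symm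
        exact_mod_cast Nat.succ_le_succ (show (i : ℕ) < j from this))
    have h2 := beta_re (s0 i) (by
      rw [hκ, mul_one_div, div_le_div_iff₀ (by positivity) (by positivity)]
      have : (i : ℝ) ≤ n := by exact_mod_cast i.2.le
      linarith) (g3 t)
    rw [← Finset.add_sum_erase _ _ (Finset.mem_univ i), mul_add, inv_mul_cancel_left₀ hi]
    generalize ∑ j ∈ Finset.univ.erase i, c j * beta ((j + 1) * κ) (G t) = r at h1
    have h3 : ‖(c i)⁻¹ * r‖ ≤ ‖beta ((i + 1) * κ) (G t)‖ / 4 := by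
      rw [norm_mul, norm_inv, inv_mul_le_iff₀ ci]
      exact h1.trans_eq (by field_simp)
    have h4 : 0 < ‖beta ((i + 1) * κ) (G t)‖ := norm_pos_iff.2 (exp_ne_zero _)
    refine ⟨_, h4, beta_le (s0 i) (g3 t), ?_, (norm_add_le _ _).trans (by linarith)⟩
    rw [add_re]
    linarith [neg_abs_le ((c i)⁻¹ * r).re, abs_re_le_norm ((c i)⁻¹ * r)]
  obtain ⟨ε, ⟨e1, e2⟩, e0⟩ := (((show ∀ᶠ ε in 𝓝[>] (0 : ℝ), ε ≤ 1 / 8 from nhdsWithin_le_nhds
    (ge_mem_nhds (by norm_num))).and (show ∀ᶠ ε in 𝓝[>] (0 : ℝ), ε ≤ δ * ‖c i‖ / C from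
      nhdsWithin_le_nhds (ge_mem_nhds (by positivity)))).and self_mem_nhdsWithin).exists
  have e0 : 0 < ε := e0
  refine ⟨-ε * (c i)⁻¹, by simp [hi, e0.ne'], ?_, fun η hη => ?_, δ, d1, main.mono fun t ht h h' => ?_⟩
  · filter_upwards [main, hf.2] with t ht h1
    rw [mul_left_comm, ← mul_one_add, norm_mul, mul_assoc]
    by_cases h : 1 - δ < ‖f t‖
    · obtain ⟨β, b0, b1, b2, b3⟩ := ht h
      generalize (c i)⁻¹ * ∑ j : Fin n, c j * beta ((j + 1) * κ) (G t) = q at b2 b3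
      refine mul_le_one₀ h1 (norm_nonneg _) ((sq_le_one_iff₀ (norm_nonneg _)).1 ?_)
      have : ‖q‖ ^ 2 ≤ 4 * β := by nlinarith [norm_nonneg q]
      rw [Complex.sq_norm, normSq_apply] at this ⊢
      simp
      nlinarith [mul_le_mul_of_nonneg_left this (sq_nonneg ε), mul_pos e0 b0]
    · have h2 := bd (fun j => beta ((j + 1) * κ) (G t)) Finset.univ 1 zero_le_one
        fun j _ _ => beta_le (s0 j) (g3 t)
      have h3 : ‖1 + -ε * ((c i)⁻¹ * ∑ j : Fin n, c j * beta ((j + 1) * κ) (G t))‖ ≤ 1 + δ := by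
        refine (norm_add_le _ _).trans ?_
        rw [norm_one, norm_mul, norm_mul, norm_neg, Complex.norm_of_nonneg e0.le, norm_inv,
          add_le_add_iff_left, mul_left_comm, inv_mul_le_iff₀ ci]
        rw [le_div_iff₀ C1] at e2
        nlinarith
      nlinarith [norm_nonneg (f t), mul_le_mul (not_lt.1 h) h3 (norm_nonneg _)
        ((norm_nonneg _).trans (not_lt.1 h))]
  · obtain ⟨δ, d1, d2⟩ := sm (η / C) (by positivity)
    refine ⟨δ, d1, d2.mono fun t ht h => (bd _ _ (η / C) (by positivity) fun j _ _ => ?_).trans_eq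
      (by field_simp)⟩
    simpa [beta] using ht h 0 (j + 1) (by simp)
  · obtain ⟨β, b0, -, b2, -⟩ := ht h
    simp [h'] at b2
    linarith

lemma uniq {g : T → ℂ} (hg : HH g) {E : Set T} (hE : MeasurableSet E) (h0 : μ E ≠ 0)
    (h : ∀ᵐ t ∂μ, t ∈ E → g t = 0) : g =ᵐ[μ] 0 := by
  obtain ⟨G, g1, g2⟩ := outer (a := E.indicator 1) (B := 1) ⟨(measurable_ofReal.comp
    (measurable_one.indicator hE)).aestronglyMeasurable, .of_forall fun t => by
      by_cases h : t ∈ E <;> simp [h]⟩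
  have p : 0 < μ.real E := ENNReal.toReal_pos h0 (measure_ne_top _ _)
  have st : ∀ g, HH g → (∀ᵐ t ∂μ, t ∈ E → g t = 0) → ∫ t, g t ∂μ = 0 := fun g hg h => by
    by_contra hn
    have hn := norm_pos_iff.2 hn
    obtain ⟨c, hc⟩ := ((Real.tendsto_exp_atTop.comp (tendsto_id.atTop_mul_const p)).const_mul_atTop
      hn).eventually_gt_atTop (∫ t, ‖g t‖ ∂μ) |>.exists
    have := norm_integral_le_of_norm_le (HH.int hg).norm (f := fun t => g t * cexp (c * G t))
      (h.mono fun t ht => by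
        by_cases e : t ∈ E
        · simp [ht e]
        · simp [Complex.norm_exp, g1, e])
    rw [mean_mul hg (g2 c).1, (g2 c).2, integral_indicator_one hE, norm_mul,
      Complex.norm_of_nonneg (Real.exp_pos _).le] at this
    exact hc.not_ge this
  obtain ⟨B, hB⟩ := hg
  have : ∀ n : ℕ, ∀ m < (n : ℤ), fourierCoeff g m = 0 := fun n => by
    induction n with
    | zero => exact hB.2
    | succ n ih =>
      intro m hm
      rcases lt_or_eq_of_le (show m ≤ n by omega) with h' | rfl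
      · exact ih m h'
      refine st (fun t => fourier (-n) t * g t) ⟨_, (bd_four _).mul hB.1, fun k hk => ?_⟩
        (h.mono fun t ht e => by simp [ht e])
      rw [← ih (k + n) (by omega)]
      simp only [fourierCoeff, smul_eq_mul, neg_add, fourier_add, mul_assoc]
  exact zero_of hB.1.int fun m => this (m.toNat + 1) m (by omega)

end Pool.Agent.H.MP_4ac5ef_an
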